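import Pool.Agent.Helper39.ETC.G1011
import Pool.Agent.Helper29.ETC.D1234
import Pool.Agent.Helper44.ETC.O1235
import Pool.Agent.Helper8.ETC.G12

/-!
# Block ETC-D56: the local groups are open in the topology of `O`
-/

set_option autoImplicit false

namespace Pool.Helper37.ETC

open Module

namespace D56

section ValHelp

variable {K : Type*} [Field K]

theorem exists_pi_val (O : ValuationSubring K) (hO : O ≠ ⊤) :
    ∃ π : K, π ≠ 0 ∧ O.valuation π < 1 := by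
  obtain ⟨z, hz⟩ : ∃ z : K, z ∉ O := by
    by_contra hcon
    push Not at hcon
    exact hO (le_antisymm (ValuationSubring.le_top _) fun t _ => hcon t)
  have hz0 : z ≠ 0 := by
    rintro rfl
    exact hz O.zero_mem
  refine ⟨z⁻¹, inv_ne_zero hz0, ?_⟩
  have h1 : ¬ O.valuation z ≤ 1 := fun h => hz ((O.valuation_le_one_iff z).1 h)
  rw [map_inv₀]
  exact inv_lt_one_of_one_lt₀ (not_le.1 h1)

theorem one_add_unit (O : ValuationSubring K) {d t : K} (hd : O.valuation d < 1) (ht : t ∈ O) :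
    1 + d * t ≠ 0 ∧ (1 + d * t)⁻¹ ∈ O := by
  have h1 : O.valuation (d * t) < 1 := by
    rw [map_mul]
    exact mul_lt_one_of_lt_of_le hd ((O.valuation_le_one_iff t).2 ht)
  have h2 : O.valuation (1 + d * t) = 1 := Valuation.map_one_add_of_lt _ h1
  refine ⟨fun h => ?_, ?_⟩
  · rw [h, map_zero] at h2
    exact zero_ne_one h2
  · rw [← O.valuation_le_one_iff, map_inv₀, h2, inv_one]

/-- finitely many nonzero elements have a common nonzero multiple. -/
theorem exists_common_fin (O : ValuationSubring K) {ι : Type*} (s : Finset ι) (c : ι → K)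
    (hc : ∀ i ∈ s, c i ≠ 0) : ∃ d : K, d ≠ 0 ∧ ∀ i ∈ s, ∃ t ∈ O, d = c i * t := by
  classical
  induction s using Finset.induction_on with
  | empty => exact ⟨1, one_ne_zero, fun i hi => absurd hi (Finset.notMem_empty i)⟩
  | insert i s hi ih =>
    obtain ⟨d, hd, h⟩ := ih fun j hj => hc j (Finset.mem_insert_of_mem hj)
    have hci := hc i (Finset.mem_insert_self i s)
    rcases O.mem_or_inv_mem (d / c i) with h1 | h1
    · refine ⟨d, hd, fun j hj => ?_⟩
      rcases Finset.mem_insert.1 hj with rfl | hj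
      · exact ⟨d / c j, h1, by field_simp⟩
      · exact h j hj
    · refine ⟨c i, hci, fun j hj => ?_⟩
      rcases Finset.mem_insert.1 hj with rfl | hj
      · exact ⟨1, O.one_mem, by rw [mul_one]⟩
      · obtain ⟨t, ht, htd⟩ := h j hj
        refine ⟨t * (d / c i)⁻¹, O.mul_mem _ _ ht h1, ?_⟩
        rw [← mul_assoc, ← htd]
        field_simp

theorem exists_common₂ (O : ValuationSubring K) {a b : K} (ha : a ≠ 0) (hb : b ≠ 0) :
    ∃ d : K, d ≠ 0 ∧ (∃ t ∈ O, d = a * t) ∧ ∃ t ∈ O, d = b * t := by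
  obtain ⟨d, hd, h⟩ := exists_common_fin O (Finset.univ : Finset Bool) (fun i => if i then a else b)
    (by intro i _; cases i <;> simp [ha, hb])
  refine ⟨d, hd, ?_, ?_⟩
  · simpa using h true (Finset.mem_univ _)
  · simpa using h false (Finset.mem_univ _)

/-- directed pigeonhole principle. -/
theorem pigeon (O : ValuationSubring K) {ι : Type*} [Finite ι] (P : ι → K → Prop)
    (hP : ∀ i c t, t ∈ O → c * t ≠ 0 → P i (c * t) → P i c) (h : ∀ c : K, c ≠ 0 → ∃ i, P i c) :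
    ∃ i, ∀ c : K, c ≠ 0 → P i c := by
  classical
  have := Fintype.ofFinite ι
  by_contra hcon
  push Not at hcon
  choose c hc hnc using hcon
  obtain ⟨d, hd, hdc⟩ := exists_common_fin O (Finset.univ : Finset ι) c fun i _ => hc i
  obtain ⟨i, hi⟩ := h d hd
  obtain ⟨t, ht, rfl⟩ := hdc i (Finset.mem_univ _)
  exact hnc i (hP i _ t ht hd hi)

end ValHelp

section Galois

variable {p : ℕ} [Fact p.Prime] {G K : Type*} [Group G] [TopologicalSpace G]
  [IsTopologicalGroup G] [CompactSpace G] [T2Space G] [TotallyDisconnectedSpace G] [Field K]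
  [MulSemiringAction G K] {ζ : K}

omit [TopologicalSpace G] [IsTopologicalGroup G] [CompactSpace G] [T2Space G]
  [TotallyDisconnectedSpace G] in
theorem Fx.mul {x y : K} (hx : x ∈ Fx G) (hy : y ∈ Fx G) : x * y ∈ (Fx G : Set K) := fun σ => by
  rw [smul_mul', hx σ, hy σ]

omit [TopologicalSpace G] [IsTopologicalGroup G] [CompactSpace G] [T2Space G]
  [TotallyDisconnectedSpace G] in
theorem Fx.inv {x : K} (hx : x ∈ Fx G) : x⁻¹ ∈ (Fx G : Set K) := fun σ => by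
  rw [smul_inv'', hx σ]

omit [Fact p.Prime] in
/-- D2 -/
theorem incl (Gd : Good p G K ζ) (O : ValuationSubring K) (y : K)
    (h : ∀ δ ∈ Dec G O, δ • y = y) : InCl O (Fx G) y :=
  incl_of_fixed_dec_of (fun C hC y h => mem_of_fixed Gd.cont Gd.faith C hC y h) O y h

omit [TopologicalSpace G] [IsTopologicalGroup G] [CompactSpace G] [T2Space G]
  [TotallyDisconnectedSpace G] in
/-- limits of `p`-th powers of elements of `E` are `p`-th powers of limits. -/
theorem root_of_limit (hr : ∀ x : K, ∃ y : K, y ^ p = x) (hζ : IsPrimitiveRoot ζ p)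
    (O : ValuationSubring K) (E : Set K) (x : K)
    (h : ∀ c : K, c ≠ 0 → ∃ e ∈ E, ∃ t ∈ O, e ^ p = x + c * t) :
    ∃ y, InCl O E y ∧ y ^ p = x := by
  classical
  have hp : 0 < p := (Fact.out : p.Prime).pos
  obtain ⟨g, hg⟩ := hr x
  have key : ∃ μ : {μ // μ ∈ Polynomial.nthRootsFinset p (1 : K)}, ∀ c : K, c ≠ 0 →
      ∃ e ∈ E, ∃ t ∈ O, (μ : K) * g = e + c * t := by
    refine pigeon O (fun (μ : {μ // μ ∈ Polynomial.nthRootsFinset p (1 : K)}) c =>
      ∃ e ∈ E, ∃ t ∈ O, (μ : K) * g = e + c * t) ?_ ?_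
    · rintro μ c t ht _ ⟨e, he, t', ht', h1⟩
      exact ⟨e, he, t * t', O.mul_mem _ _ ht ht', by rw [h1]; ring⟩
    · intro d hd
      obtain ⟨e, he, t, ht, h1⟩ := h (d ^ p) (pow_ne_zero _ hd)
      have h2 : ∏ μ ∈ Polynomial.nthRootsFinset p (1 : K), (e - μ * g) = d ^ p * t := by
        rw [← hζ.pow_sub_pow_eq_prod_sub_mul e g hp, h1, hg]
        ring
      have h3 : ∏ μ ∈ Polynomial.nthRootsFinset p (1 : K), ((e - μ * g) / d) = t := by
        rw [Finset.prod_div_distrib, h2, Finset.prod_const, hζ.card_nthRootsFinset]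
        field_simp
      obtain ⟨μ, hμ, hμO⟩ : ∃ μ ∈ Polynomial.nthRootsFinset p (1 : K), (e - μ * g) / d ∈ O := by
        by_contra hcon
        push Not at hcon
        have h1m : (1 : K) ∈ Polynomial.nthRootsFinset p (1 : K) := by
          rw [Polynomial.mem_nthRootsFinset hp, one_pow]
        apply hcon 1 h1m
        have hne : ∀ μ ∈ Polynomial.nthRootsFinset p (1 : K), (e - μ * g) / d ≠ 0 := by
          intro μ hμ h0
          apply hcon μ hμ
          rw [h0]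
          exact O.zero_mem
        rw [← Finset.mul_prod_erase _ _ h1m] at h3
        have h4 : (e - 1 * g) / d = t *
            ∏ μ ∈ (Polynomial.nthRootsFinset p (1 : K)).erase 1, ((e - μ * g) / d)⁻¹ := by
          rw [Finset.prod_inv_distrib, eq_mul_inv_iff_mul_eq₀]
          · exact h3
          · exact Finset.prod_ne_zero_iff.2 fun μ hμ => hne μ (Finset.mem_of_mem_erase hμ)
        rw [h4]
        refine O.mul_mem _ _ ht (prod_mem fun μ hμ => ?_)
        rcases O.mem_or_inv_mem ((e - μ * g) / d) with h5 | h5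
        · exact absurd h5 (hcon μ (Finset.mem_of_mem_erase hμ))
        · exact h5
      refine ⟨⟨μ, hμ⟩, e, he, -((e - μ * g) / d), O.neg_mem _ hμO, ?_⟩
      field_simp
      ring
  obtain ⟨⟨μ, hμ⟩, hcl⟩ := key
  refine ⟨μ * g, hcl, ?_⟩
  rw [mul_pow, (Polynomial.mem_nthRootsFinset hp 1).1 hμ, one_mul, hg]

/-- elements with the same Kummer character. -/
theorem class_eq (Gd : Good p G K ζ) {e e0 : K} (he : e ∈ Fx G) (he0 : e0 ∈ Fx G) (hne : e ≠ 0)
    (hne0 : e0 ≠ 0) {χ : G → ZMod p} (h : IsKum ζ e χ) (h0 : IsKum ζ e0 χ) :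
    ∃ y ∈ (Fx G : Set K), e = e0 * y ^ p := by
  have hr : e / e0 ∈ (Fx G : Set K) := by
    rw [div_eq_mul_inv]
    exact Fx.mul he (Fx.inv he0)
  have hr0 : e / e0 ≠ 0 := div_ne_zero hne hne0
  obtain ⟨χr, -, hχr⟩ := kum_exists Gd hr hr0
  have h1 := kum_mul Gd hr0 hne0 hχr h0
  rw [div_mul_cancel₀ _ hne0] at h1
  have h2 := kum_unique Gd hne h1 h
  obtain ⟨y, hy, hyp⟩ := (kum_zero Gd hr0 hχr).1 fun σ => by
    have := congrFun h2 σ
    simpa using this
  exact ⟨y, hy, by rw [hyp]; field_simp⟩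

end Galois

end D56

open D56

section Galois

variable {p : ℕ} [Fact p.Prime] {G K : Type*} [Group G] [TopologicalSpace G]
  [IsTopologicalGroup G] [CompactSpace G] [T2Space G] [TotallyDisconnectedSpace G] [Field K]
  [MulSemiringAction G K] {ζ : K}

/-- D5 -/
theorem dec_ext (Gd : Good p G K ζ) (hfin : FinH1 p G) (O : ValuationSubring K) (hO : O ≠ ⊤)
    (χ : Dec G O → ZMod p) (hχ : IsCh p χ) :
    ∃ ψ : G → ZMod p, IsCh p ψ ∧ ∀ δ : Dec G O, ψ δ = χ δ := by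
  have hcl : IsClosed (Dec G O : Set G) := dec_closed Gd.cont O
  have : CompactSpace (Dec G O) := isCompact_iff_compactSpace.1 hcl.isCompact
  have Gd' : Good p (Dec G O) K ζ := Gd.sub (Dec G O)
  obtain ⟨x, hx, hx0, hxχ⟩ := kum_surj Gd' hχ
  have hxcl : InCl O (Fx G) x := incl Gd O x fun δ hδ => hx ⟨δ, hδ⟩
  obtain ⟨π, hπ0, hπ⟩ := exists_pi_val O hO
  have hfin' : Finite {χ : G → ZMod p | IsCh p χ} := hfin
  obtain ⟨⟨χ0, hχ0⟩, hP⟩ := pigeon O (fun (χ0 : {χ : G → ZMod p | IsCh p χ}) c =>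
    ∃ e ∈ (Fx G : Set K), e ≠ 0 ∧ IsKum ζ e χ0.1 ∧ ∃ t ∈ O, x = e + c * t) (by
      rintro χ0 c t ht _ ⟨e, he, he0, hk, t', ht', h1⟩
      exact ⟨e, he, he0, hk, t * t', O.mul_mem _ _ ht ht', by rw [h1]; ring⟩) (by
      intro c hc
      obtain ⟨d, hd, ⟨t1, ht1, hd1⟩, t2, ht2, hd2⟩ := exists_common₂ O hc (mul_ne_zero hx0 hπ0)
      obtain ⟨e, he, t, ht, h1⟩ := hxcl d hd
      have he0 : e ≠ 0 := by
        rintro rfl
        rw [zero_add, hd2] at h1
        have h2 : 1 + π * (-(t2 * t)) = 0 := by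
          have : x * (1 + π * (-(t2 * t))) = 0 := by linear_combination h1
          exact (mul_eq_zero.1 this).resolve_left hx0
        exact (one_add_unit O hπ (O.neg_mem _ (O.mul_mem _ _ ht2 ht))).1 h2
      obtain ⟨χe, hχe, hk⟩ := kum_exists Gd he he0
      exact ⟨⟨χe, hχe⟩, e, he, he0, hk, t1 * t, O.mul_mem _ _ ht1 ht, by
        rw [← mul_assoc, ← hd1]; exact h1⟩)
  obtain ⟨e0, he0, hne0, hk0, -⟩ := hP 1 one_ne_zero
  obtain ⟨y, hy, hyx⟩ := root_of_limit Gd.root Gd.prim O (Fx G) (x / e0) (by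
    intro c hc
    obtain ⟨e, he, hne, hk, t, ht, h1⟩ := hP (c * e0) (mul_ne_zero hc hne0)
    obtain ⟨w, hw, hwe⟩ := class_eq Gd he he0 hne hne0 hk hk0
    refine ⟨w, hw, -t, O.neg_mem _ ht, ?_⟩
    have h2 : w ^ p = e / e0 := by rw [hwe]; field_simp
    rw [h2, h1]
    field_simp
    ring)
  refine ⟨χ0, hχ0, fun δ => ?_⟩
  obtain ⟨α, hα⟩ := Gd.root e0
  have hα0 : α ≠ 0 := by
    rintro rfl
    rw [zero_pow (Fact.out : p.Prime).ne_zero] at hα
    exact hne0 hα.symm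
  have hy0 : y ≠ 0 := by
    rintro rfl
    rw [zero_pow (Fact.out : p.Prime).ne_zero] at hyx
    exact div_ne_zero hx0 hne0 hyx.symm
  have h1 : (α * y) ^ p = x := by rw [mul_pow, hα, hyx]; field_simp
  have h2 : (δ : G) • (α * y) = ζ ^ (χ δ).val * (α * y) := hxχ (α * y) h1 δ
  have h3 : (δ : G) • y = y := δ.2 y hy
  have h4 : (δ : G) • α = ζ ^ (χ0 (δ : G)).val * α := hk0 α hα δ
  rw [smul_mul', h3, h4] at h2
  have h5 : ζ ^ (χ0 (δ : G)).val = ζ ^ (χ δ).val := by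
    have h6 : (ζ ^ (χ0 (δ : G)).val - ζ ^ (χ δ).val) * (α * y) = 0 := by linear_combination h2
    rcases mul_eq_zero.1 h6 with h7 | h7
    · exact sub_eq_zero.1 h7
    · exact absurd h7 (mul_ne_zero hα0 hy0)
  exact ZMod.val_injective p (Gd.prim.pow_inj (ZMod.val_lt _) (ZMod.val_lt _) h5)

/-- D6 -/
theorem dec_open (Gd : Good p G K ζ) (hfin : FinH1 p G) (O : ValuationSubring K) (hO : O ≠ ⊤) :
    ∃ c ∈ (Fx G : Set K), c ≠ 0 ∧ ∀ x ∈ (Fx G : Set K), ∀ t ∈ O, x = 1 + c * t →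
      x ≠ 0 ∧ ∃ y, InCl O (Fx G) y ∧ y ^ p = x := by
  classical
  obtain ⟨π, hπ0, hπ⟩ := exists_pi_val O hO
  have hfin' : Finite {χ : G → ZMod p | IsCh p χ} := hfin
  have := Fintype.ofFinite {χ : G → ZMod p | IsCh p χ}
  -- constants for the classes which do not come close to `1`
  have hd : ∀ χ : {χ : G → ZMod p | IsCh p χ}, ∃ d : K, d ≠ 0 ∧
      ((∃ e ∈ (Fx G : Set K), e ≠ 0 ∧ IsKum ζ e χ.1 ∧ ∃ t ∈ O, e = 1 + d * t) →
        ∀ d : K, d ≠ 0 → ∃ e ∈ (Fx G : Set K), e ≠ 0 ∧ IsKum ζ e χ.1 ∧ ∃ t ∈ O, e = 1 + d * t) := by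
    intro χ
    by_cases h : ∀ d : K, d ≠ 0 → ∃ e ∈ (Fx G : Set K), e ≠ 0 ∧ IsKum ζ e χ.1 ∧
      ∃ t ∈ O, e = 1 + d * t
    · exact ⟨1, one_ne_zero, fun _ => h⟩
    · push Not at h
      obtain ⟨d, hd, hd'⟩ := h
      refine ⟨d, hd, ?_⟩
      rintro ⟨e, he, he0, hk, t, ht, h1⟩
      exact absurd h1 (hd' e he he0 hk t ht)
  choose d hd hdd using hd
  obtain ⟨c1, hc1, hc1d⟩ := exists_common_fin O (Finset.univ : Finset {χ : G → ZMod p | IsCh p χ}) d
    fun χ _ => hd χ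
  obtain ⟨c2, hc2, ⟨t1, ht1, hc21⟩, t2, ht2, hc22⟩ := exists_common₂ O hc1 hπ0
  obtain ⟨c, hcF, hc0, t3, ht3, hc3⟩ := exists_small_fixed (G := G) Gd.cont O hc2
  refine ⟨c, hcF, hc0, fun x hx t ht hxt => ?_⟩
  have hxe : x = 1 + π * (t2 * t3 * t) := by rw [hxt, hc3, hc22]; ring
  have hx0 : x ≠ 0 := by
    rw [hxe]
    exact (one_add_unit O hπ (O.mul_mem _ _ (O.mul_mem _ _ ht2 ht3) ht)).1
  refine ⟨hx0, ?_⟩
  obtain ⟨χx, hχx, hkx⟩ := kum_exists Gd hx hx0
  obtain ⟨t4, ht4, hc4⟩ := hc1d ⟨χx, hχx⟩ (Finset.mem_univ _)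
  have hA := hdd ⟨χx, hχx⟩ ⟨x, hx, hx0, hkx, t4 * t1 * t3 * t,
    O.mul_mem _ _ (O.mul_mem _ _ (O.mul_mem _ _ ht4 ht1) ht3) ht, by
      rw [hxt, hc3, hc21, hc4]; ring⟩
  refine root_of_limit Gd.root Gd.prim O (Fx G) x fun c' hc' => ?_
  obtain ⟨d', hd', ⟨s1, hs1, hd1⟩, s2, hs2, hd2⟩ := exists_common₂ O (div_ne_zero hc' hx0) hπ0
  obtain ⟨e, he, he0, hke, s, hs, hes⟩ := hA d' hd'
  obtain ⟨w, hw, hwe⟩ := class_eq Gd hx he hx0 he0 hkx hke
  have hunit := one_add_unit O hπ (O.mul_mem _ _ hs2 hs)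
  have hee : 1 + π * (s2 * s) = e := by rw [hes, hd2]; ring
  rw [hee] at hunit
  refine ⟨w, hw, -(s1 * s * e⁻¹), O.neg_mem _ (O.mul_mem _ _ (O.mul_mem _ _ hs1 hs) hunit.2), ?_⟩
  have h1 : w ^ p = x / e := by rw [hwe]; field_simp
  have h2 : c' * (s1 * s) = x * (e - 1) := by
    rw [hes, hd1]
    field_simp
    ring
  rw [h1]
  field_simp
  linear_combination h2

end Galois

end Pool.Helper37.ETC
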