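import Pool.Agent.Helper65.ETC.D56
import Pool.Agent.Helper88.ETC.F123
import Pool.Agent.Helper14.ETC.V
import Pool.Agent.Helper31.ETC.O4
import Pool.Agent.Helper43.ETC.O6

/-!
# Block ETC-D8: the local group is a decomposition group
-/

set_option autoImplicit false

namespace Pool.Helper37.ETC

open Module

namespace D8

/-- overrings of a valuation ring are comparable. -/
theorem overring_total {K : Type*} [Field K] (O A B : ValuationSubring K) (hA : O ≤ A)
    (hB : O ≤ B) : A ≤ B ∨ B ≤ A := by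
  have h := le_total (⟨A, hA⟩ : {S // O ≤ S}) ⟨B, hB⟩
  exact h

section Trans

variable {G K : Type*} [Group G] [Field K] [MulSemiringAction G K]

/-- the valuation ring `{x | g • x ∈ O}`. -/
def tr (g : G) (O : ValuationSubring K) : ValuationSubring K :=
  O.comap (MulSemiringAction.toRingHom G K g)

theorem mem_tr {g : G} {O : ValuationSubring K} {x : K} : x ∈ tr g O ↔ g • x ∈ O := Iff.rfl

theorem tr_mono {g : G} {O O' : ValuationSubring K} (h : O ≤ O') : tr g O ≤ tr g O' :=
  fun _ hx => h hx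

theorem tr_tr (g h : G) (O : ValuationSubring K) : tr h (tr g O) = tr (g * h) O := by
  ext x
  rw [mem_tr, mem_tr, mem_tr, mul_smul]

theorem tr_one (O : ValuationSubring K) : tr (1 : G) O = O := by
  ext x
  rw [mem_tr, one_smul]

theorem mem_zg_iff {g : G} {O : ValuationSubring K} : g ∈ Zg G O ↔ tr g O = O := by
  constructor
  · intro h
    ext x
    exact (h x).symm
  · intro h x
    rw [← mem_tr, h]

theorem res_tr_of_fix {D : Subgroup G} {g : G} (hg : g ∈ D) (O : ValuationSubring K) :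
    res D (tr g O) = res D O := by
  ext x
  change g • (x : K) ∈ O ↔ (x : K) ∈ O
  have : g • (x : K) = x := x.2 ⟨g, hg⟩
  rw [this]

theorem tr_ne_top {g : G} {O : ValuationSubring K} (hO : O ≠ ⊤) : tr g O ≠ ⊤ := by
  intro h
  apply hO
  rw [eq_top_iff]
  intro x _
  have h1 : g⁻¹ • x ∈ tr g O := by
    rw [h]
    exact ValuationSubring.mem_top _
  rw [mem_tr, smul_inv_smul] at h1
  exact h1

end Trans

section Galois

variable {p : ℕ} [Fact p.Prime] {G K : Type*} [Group G] [TopologicalSpace G]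
  [IsTopologicalGroup G] [CompactSpace G] [T2Space G] [TotallyDisconnectedSpace G] [Field K]
  [MulSemiringAction G K] {ζ : K}

omit [Fact p.Prime] in
/-- the decomposition groups increase. -/
theorem zg_mono (Gd : Good p G K ζ) {O O' : ValuationSubring K} (h : O ≤ O') :
    Zg G O ≤ Zg G O' := by
  intro σ hσ
  rw [mem_zg_iff] at hσ ⊢
  have h1 : O ≤ tr σ O' := by
    rw [← hσ]
    exact tr_mono h
  have h2 : res G (tr σ O') = res G O' := by
    ext x
    change σ • (x : K) ∈ O' ↔ (x : K) ∈ O'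
    have : σ • (x : K) = x := x.2 σ
    rw [this]
  rcases overring_total O _ _ h1 h with h3 | h3
  · exact eq_of_le_of_res Gd.cont _ _ h3 h2
  · exact (eq_of_le_of_res Gd.cont _ _ h3 h2.symm).symm

/-- a character of `D = Dec G O` which vanishes on all decomposition groups of the coarsenings. -/
theorem exists_char (Gd : Good p G K ζ) (hfin : FinH1 p G) (O : ValuationSubring K)
    (hO : O ≠ ⊤) (hcon : ∀ O' : ValuationSubring K, O ≤ O' → O' ≠ ⊤ → Dec G O ≠ Zg G O') :
    ∃ χ : Dec G O → ZMod p, IsCh p χ ∧ (∃ σ, χ σ ≠ 0) ∧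
      ∀ O' : ValuationSubring K, O ≤ O' → O' ≠ ⊤ → ∀ δ : Dec G O, (δ : G) ∈ Zg G O' →
        χ δ = 0 := by
  classical
  have hcl : IsClosed (Dec G O : Set G) := dec_closed Gd.cont O
  have : CompactSpace (Dec G O) := isCompact_iff_compactSpace.1 hcl.isCompact
  have Gd' : Good p (Dec G O) K ζ := Gd.sub (Dec G O)
  have hfinD : {χ : Dec G O → ZMod p | IsCh p χ}.Finite := by
    have h1 : {χ : Dec G O → ZMod p | IsCh p χ} ⊆
        (fun ψ : G → ZMod p => fun δ : Dec G O => ψ δ) '' {ψ : G → ZMod p | IsCh p ψ} := by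
      intro χ hχ
      obtain ⟨ψ, hψ, h⟩ := dec_ext Gd hfin O hO χ hχ
      exact ⟨ψ, hψ, funext h⟩
    exact (Set.Finite.image _ hfin).subset h1
  have hind : ∀ S : Finset (Dec G O → ZMod p), ∃ O'' : ValuationSubring K, O ≤ O'' ∧ O'' ≠ ⊤ ∧
      ∀ χ ∈ S, (∀ δ : Dec G O, (δ : G) ∈ Zg G O'' → χ δ = 0) →
        ∀ O' : ValuationSubring K, O ≤ O' → O' ≠ ⊤ → ∀ δ : Dec G O, (δ : G) ∈ Zg G O' →
          χ δ = 0 := by
    intro S
    induction S using Finset.induction_on with
    | empty => exact ⟨O, le_rfl, hO, fun χ hχ => absurd hχ (Finset.notMem_empty χ)⟩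
    | insert χ S hχ ih =>
      obtain ⟨O2, h2, h2t, ih2⟩ := ih
      by_cases h : ∀ O' : ValuationSubring K, O ≤ O' → O' ≠ ⊤ → ∀ δ : Dec G O,
          (δ : G) ∈ Zg G O' → χ δ = 0
      · refine ⟨O2, h2, h2t, fun χ' hχ' hv => ?_⟩
        rcases Finset.mem_insert.1 hχ' with rfl | h3
        · exact h
        · exact ih2 χ' h3 hv
      · push Not at h
        obtain ⟨O1, h1, h1t, δ, hδ, hχδ⟩ := h
        rcases overring_total O O1 O2 h1 h2 with h3 | h3
        · refine ⟨O2, h2, h2t, fun χ' hχ' hv => ?_⟩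
          rcases Finset.mem_insert.1 hχ' with rfl | h4
          · exact absurd (hv δ (zg_mono Gd h3 hδ)) hχδ
          · exact ih2 χ' h4 hv
        · refine ⟨O1, h1, h1t, fun χ' hχ' hv => ?_⟩
          rcases Finset.mem_insert.1 hχ' with rfl | h4
          · exact absurd (hv δ hδ) hχδ
          · exact ih2 χ' h4 fun δ' hδ' => hv δ' (zg_mono Gd h3 hδ')
  obtain ⟨O2, h2, h2t, hS⟩ := hind hfinD.toFinset
  have hle : Zg G O2 ≤ Dec G O := by
    rw [dec_eq_of_le O O2 h2 h2t]
    exact zg_le_dec O2 h2t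
  obtain ⟨χ, hχ, hne, hv⟩ := exists_ch (p := p) Gd'.pp ((Zg G O2).subgroupOf (Dec G O)) (by
    have h3 : IsClosed (Zg G O2 : Set G) := zg_closed Gd.cont O2
    exact h3.preimage continuous_subtype_val) (by
    intro h3
    apply hcon O2 h2 h2t
    refine le_antisymm ?_ hle
    rw [Subgroup.subgroupOf_eq_top] at h3
    exact h3)
  exact ⟨χ, hχ, hne, hS χ (hfinD.mem_toFinset.2 hχ) fun δ hδ =>
    hv δ (Subgroup.mem_subgroupOf.2 hδ)⟩

end Galois

end D8

open D8 D56

section Galois

variable {p : ℕ} [Fact p.Prime] {G K : Type*} [Group G] [TopologicalSpace G]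
  [IsTopologicalGroup G] [CompactSpace G] [T2Space G] [TotallyDisconnectedSpace G] [Field K]
  [MulSemiringAction G K] {ζ : K}

/-- D8 -/
theorem dec_eq_zg (Gd : Good p G K ζ) (hfin : FinH1 p G) (O : ValuationSubring K)
    (hO : O ≠ ⊤) : ∃ O' : ValuationSubring K, O ≤ O' ∧ O' ≠ ⊤ ∧ Dec G O = Zg G O' := by
  classical
  by_contra hcon
  push Not at hcon
  obtain ⟨χ, hχ, ⟨σ0, hσ0⟩, hZ⟩ := exists_char Gd hfin O hO hcon
  have hclD : IsClosed (Dec G O : Set G) := dec_closed Gd.cont O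
  have : CompactSpace (Dec G O) := isCompact_iff_compactSpace.1 hclD.isCompact
  have Gd' : Good p (Dec G O) K ζ := Gd.sub (Dec G O)
  have hχ1 : χ 1 = 0 := by
    have := hχ.1 1 1
    rw [one_mul] at this
    simpa using this
  have hχinv : ∀ g, χ g⁻¹ = - χ g := by
    intro g
    have := hχ.1 g g⁻¹
    rw [mul_inv_cancel, hχ1] at this
    exact (neg_eq_of_add_eq_zero_right this.symm).symm
  have hχpow : ∀ g (n : ℕ), χ (g ^ n) = n * χ g := by
    intro g n
    induction n with
    | zero => simp [hχ1]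
    | succ n ih =>
      rw [pow_succ, hχ.1, ih]
      push_cast
      ring
  -- an element with `χ σ = 1`
  obtain ⟨σ, hσ⟩ : ∃ σ, χ σ = 1 := by
    refine ⟨σ0 ^ ((χ σ0)⁻¹).val, ?_⟩
    rw [hχpow, ZMod.natCast_zmod_val, inv_mul_cancel₀ hσ0]
  -- the kernel
  set D1 : Subgroup G :=
    { carrier := {g | ∃ h : g ∈ Dec G O, χ ⟨g, h⟩ = 0}
      mul_mem' := by
        rintro a b ⟨ha, ha'⟩ ⟨hb, hb'⟩
        refine ⟨mul_mem ha hb, ?_⟩
        have := hχ.1 ⟨a, ha⟩ ⟨b, hb⟩
        rw [ha', hb', add_zero] at this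
        exact this
      one_mem' := ⟨one_mem _, hχ1⟩
      inv_mem' := by
        rintro a ⟨ha, ha'⟩
        refine ⟨inv_mem ha, ?_⟩
        have := hχinv ⟨a, ha⟩
        rw [ha', neg_zero] at this
        exact this } with hD1
  have memD1 : ∀ g : Dec G O, (g : G) ∈ D1 ↔ χ g = 0 := fun g => ⟨fun h => h.2, fun h => ⟨g.2, h⟩⟩
  have hD1le : D1 ≤ Dec G O := fun g hg => hg.1
  have hclD1 : IsClosed (D1 : Set G) := by
    have h1 : IsClosed {g : Dec G O | χ g = 0} := by
      have := hχ.2.continuous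
      exact isClosed_singleton.preimage this
    have h2 : (D1 : Set G) = Subtype.val '' {g : Dec G O | χ g = 0} := by
      ext g
      constructor
      · rintro ⟨h, h'⟩
        exact ⟨⟨g, h⟩, h', rfl⟩
      · rintro ⟨g', hg', rfl⟩
        exact ⟨g'.2, hg'⟩
    rw [h2]
    exact (hclD.isClosedEmbedding_subtypeVal).isClosedMap _ h1
  have : CompactSpace D1 := isCompact_iff_compactSpace.1 hclD1.isCompact
  have Gd1 : Good p D1 K ζ := Gd.sub D1
  -- the conjugates of `O`
  set A : Fin p → ValuationSubring K := fun j => tr ((σ : G) ^ (j : ℕ)) O with hA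
  have hAt : ∀ j, A j ≠ ⊤ := fun j => tr_ne_top hO
  have hQt : ∀ j, res D1 (A j) ≠ ⊤ := fun j h => hAt j (res_eq_top Gd1.cont _ h)
  have hind : ∀ i j : Fin p, i ≠ j → res D1 (A i) ⊔ res D1 (A j) = ⊤ := by
    intro i j hij
    by_contra hB
    obtain ⟨A', hA', hrA'⟩ := exists_coarse (G := D1) (A i) _ (le_sup_left (b := res D1 (A j)))
    obtain ⟨A'', hA'', hrA''⟩ := exists_coarse (G := D1) (A j) (res D1 (A i) ⊔ res D1 (A j))
      le_sup_right
    obtain ⟨τ, hτ⟩ := exists_conj Gd1.cont A' A'' (hrA'.trans hrA''.symm)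
    have hτ' : tr (τ : G) A'' = A' := by
      ext x
      exact (hτ x).symm
    set O' := tr ((σ : G) ^ (i : ℕ))⁻¹ A' with hO'
    set O'' := tr ((σ : G) ^ (j : ℕ))⁻¹ A'' with hO''
    have h1 : O ≤ O' := by
      have := tr_mono (g := ((σ : G) ^ (i : ℕ))⁻¹) hA'
      rw [hA] at this
      simp only [tr_tr, mul_inv_cancel, tr_one] at this
      exact this
    have h2 : O ≤ O'' := by
      have := tr_mono (g := ((σ : G) ^ (j : ℕ))⁻¹) hA''
      rw [hA] at this
      simp only [tr_tr, mul_inv_cancel, tr_one] at this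
      exact this
    -- `O' = tr ρ O''`
    set ρ : G := (σ : G) ^ (j : ℕ) * (τ : G) * ((σ : G) ^ (i : ℕ))⁻¹ with hρ
    have hρD : ρ ∈ Dec G O :=
      mul_mem (mul_mem (pow_mem σ.2 _) (hD1le τ.2)) (inv_mem (pow_mem σ.2 _))
    have h3 : O' = tr ρ O'' := by
      rw [hO', hO'', tr_tr, ← hτ', tr_tr, hρ]
      congr 1
      group
    have h4 : res (Dec G O) O' = res (Dec G O) O'' := by
      rw [h3, res_tr_of_fix hρD]
    have h5 : O' = O'' := by
      rcases overring_total O O' O'' h1 h2 with h | h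
      · exact eq_of_le_of_res Gd'.cont _ _ h h4
      · exact (eq_of_le_of_res Gd'.cont _ _ h h4.symm).symm
    have h6 : ρ ∈ Zg G O' := by
      rw [mem_zg_iff]
      conv_lhs => rw [h5]
      exact h3.symm
    have h7 : O' ≠ ⊤ := by
      intro h
      apply hB
      rw [← hrA', eq_top_iff]
      intro x _
      have h8 : ((σ : G) ^ (i : ℕ)) • (x : K) ∈ O' := by
        rw [h]
        exact ValuationSubring.mem_top _
      rw [hO', mem_tr, inv_smul_smul] at h8
      exact h8
    have h8 := hZ O' h1 h7 ⟨ρ, hρD⟩ h6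
    have h9 : (⟨ρ, hρD⟩ : Dec G O) = σ ^ (j : ℕ) * ⟨τ, hD1le τ.2⟩ * (σ ^ (i : ℕ))⁻¹ := rfl
    have h10 : χ ⟨τ, hD1le τ.2⟩ = 0 := (memD1 ⟨τ, hD1le τ.2⟩).1 τ.2
    rw [h9, hχ.1, hχ.1, hχinv, hχpow, hχpow, hσ, h10] at h8
    apply hij
    have h11 : ((i : ℕ) : ZMod p) = ((j : ℕ) : ZMod p) := by linear_combination -h8
    rw [ZMod.natCast_eq_natCast_iff'] at h11
    rw [Nat.mod_eq_of_lt i.2, Nat.mod_eq_of_lt j.2] at h11
    exact Fin.ext h11
  -- the elements fixed by `D1` are fixed by `σ`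
  have key : ∀ x : K, (∀ δ ∈ D1, δ • x = x) → (σ : G) • x = x := by
    intro x hx
    by_cases hx0 : x = 0
    · rw [hx0, smul_zero]
    apply σ.2 x
    -- `x` is a limit of elements fixed by `Dec G O`
    have hcl : ∀ c : K, c ≠ 0 → ∃ y : K, (∀ δ ∈ Dec G O, δ • y = y) ∧ ∃ t ∈ O, x = y + c * t := by
      intro c hc
      have hd : ∀ j : Fin p, ∃ d : Fxs D1 K, d ≠ 0 ∧ ∃ t ∈ A j,
          (d : K) = (((σ : G) ^ (j : ℕ))⁻¹ • c / x) * t := by
        intro j
        have hc1 : ((σ : G) ^ (j : ℕ))⁻¹ • c / x ≠ 0 := by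
          refine div_ne_zero ?_ hx0
          rwa [Ne, smul_eq_zero_iff_eq]
        obtain ⟨d, hd, hd0, t, ht, hdt⟩ := exists_small_fixed (G := D1) Gd1.cont (A j) hc1
        exact ⟨⟨d, hd⟩, fun h => hd0 (congrArg Subtype.val h), t, ht, hdt⟩
      choose d hd0 hdt using hd
      have hp0 : 0 < p := (Fact.out : p.Prime).pos
      obtain ⟨e, he⟩ := weak_approx (fun j => res D1 (A j)) hQt hind
        (fun j => if (j : ℕ) = 0 then 1 else 0) hd0
      set z : K := (e : K) * x with hz
      have hz1 : ∀ δ ∈ D1, δ • z = z := by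
        intro δ hδ
        rw [hz, smul_mul', hx δ hδ]
        have : δ • (e : K) = e := e.2 ⟨δ, hδ⟩
        rw [this]
      have hT : ∀ g : Dec G O, (g : G) • z = ((σ : G) ^ (χ g).val) • z := by
        intro g
        have h1 : ((σ : G) ^ (χ g).val)⁻¹ * (g : G) ∈ D1 := by
          have h2 : χ ((σ ^ (χ g).val)⁻¹ * g) = 0 := by
            rw [hχ.1, hχinv, hχpow, hσ, ZMod.natCast_zmod_val]
            ring
          exact (memD1 ((σ ^ (χ g).val)⁻¹ * g)).2 h2
        have h2 := hz1 _ h1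
        rw [mul_smul, inv_smul_eq_iff] at h2
        exact h2
      refine ⟨∑ m : ZMod p, ((σ : G) ^ m.val) • z, ?_, ?_⟩
      · intro δ hδ
        rw [Finset.smul_sum]
        have h1 : ∀ m : ZMod p, δ • (((σ : G) ^ m.val) • z) =
            ((σ : G) ^ (χ ⟨δ, hδ⟩ + m).val) • z := by
          intro m
          have h2 := hT (⟨δ, hδ⟩ * σ ^ m.val)
          rw [hχ.1, hχpow, hσ, ZMod.natCast_zmod_val, mul_one] at h2
          rw [← h2, ← mul_smul]
          rfl
        rw [Finset.sum_congr rfl fun m _ => h1 m]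
        exact Fintype.sum_equiv (Equiv.addLeft (χ ⟨δ, hδ⟩)) _ _ fun m => rfl
      · -- estimate
        have hsmall : ∀ m : ZMod p, m ≠ 0 → ∃ t ∈ O, ((σ : G) ^ m.val) • z = c * t := by
          intro m hm
          have hm' : m.val ≠ 0 := fun h => hm ((ZMod.val_eq_zero m).1 h)
          obtain ⟨t, ht, h1⟩ := he ⟨m.val, ZMod.val_lt m⟩
          obtain ⟨t', ht', h2⟩ := hdt ⟨m.val, ZMod.val_lt m⟩
          rw [if_neg hm', zero_add] at h1
          have h3 : (e : K) = (d ⟨m.val, ZMod.val_lt m⟩ : K) * (t : K) := by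
            rw [h1]
            rfl
          have h4 : z = ((σ : G) ^ m.val)⁻¹ • c * (t' * (t : K)) := by
            rw [hz, h3, h2]
            field_simp
          refine ⟨((σ : G) ^ m.val) • (t' * (t : K)), ?_, ?_⟩
          · exact (A ⟨m.val, ZMod.val_lt m⟩).mul_mem _ _ ht' ht
          · rw [h4, smul_mul', smul_inv_smul]
        have hzero : ∃ t ∈ O, z = x + c * t := by
          obtain ⟨t, ht, h1⟩ := he ⟨0, hp0⟩
          obtain ⟨t', ht', h2⟩ := hdt ⟨0, hp0⟩
          rw [if_pos rfl] at h1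
          have h3 : (e : K) = 1 + (d ⟨0, hp0⟩ : K) * (t : K) := by
            rw [h1]
            rfl
          simp only [pow_zero, inv_one, one_smul] at h2
          refine ⟨t' * (t : K), ?_, ?_⟩
          · have h4 := (A ⟨0, hp0⟩).mul_mem _ _ ht' ht
            have h5 : A ⟨0, hp0⟩ = O := by
              rw [hA]
              simp only [pow_zero]
              exact tr_one O
            rwa [h5] at h4
          · rw [hz, h3, h2]
            field_simp
        have hsum : ∃ t ∈ O, ∑ m ∈ (Finset.univ : Finset (ZMod p)).erase 0,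
            ((σ : G) ^ m.val) • z = c * t := by
          have h1 : ∀ m : ZMod p, ∃ t ∈ O, m ≠ 0 → ((σ : G) ^ m.val) • z = c * t := by
            intro m
            by_cases hm : m = 0
            · exact ⟨0, O.zero_mem, fun h => absurd hm h⟩
            · obtain ⟨t, ht, h⟩ := hsmall m hm
              exact ⟨t, ht, fun _ => h⟩
          choose t ht htz using h1
          refine ⟨∑ m ∈ (Finset.univ : Finset (ZMod p)).erase 0, t m,
            sum_mem fun m _ => ht m, ?_⟩
          rw [Finset.mul_sum]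
          exact Finset.sum_congr rfl fun m hm => htz m (Finset.ne_of_mem_erase hm)
        obtain ⟨t1, ht1, h1⟩ := hzero
        obtain ⟨t2, ht2, h2⟩ := hsum
        refine ⟨-(t1 + t2), O.neg_mem _ (O.add_mem _ _ ht1 ht2), ?_⟩
        rw [← Finset.add_sum_erase _ _ (Finset.mem_univ (0 : ZMod p)), h2, ZMod.val_zero, pow_zero,
          one_smul, h1]
        ring
    intro c hc
    obtain ⟨y, hy, t, ht, hxy⟩ := hcl c hc
    obtain ⟨e, he, t', ht', hye⟩ := incl Gd O y hy c hc
    exact ⟨e, he, t' + t, O.add_mem _ _ ht' ht, by rw [hxy, hye]; ring⟩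
  have h1 : (σ : G) ∈ D1 := mem_of_fix Gd.cont Gd.faith D1 hclD1 σ key
  have h2 := (memD1 σ).1 h1
  rw [hσ] at h2
  exact one_ne_zero h2

end Galois

end Pool.Helper37.ETC
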